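import Mathlib

set_option autoImplicit false

namespace Pool.Agent.Results.MP_aa9284_co.Disproof

open Finset Configuration Configuration.ProjectivePlane

open Classical in
/-- The sum of the labels of the points on the line `l`. -/
noncomputable def lineSum {P L : Type} [Membership P L] [Fintype P] (w : P → ℕ) (l : L) : ℕ :=
  ∑ x ∈ univ.filter (fun x : P => x ∈ l), w x

/-- The dual irregularity strength `s*`: the least `s` bounding all labels of some labelling of
the points by positive integers with pairwise distinct line sums. -/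
noncomputable def dualStrength (P L : Type) [Membership P L] [Fintype P] : ℕ :=
  sInf {s | ∃ w : P → ℕ, (∀ x, 0 < w x) ∧ Function.Injective (lineSum (L := L) w) ∧ ∀ x, w x ≤ s}

lemma bound (P L : Type) [Membership P L] [Fintype P] [Fintype L] [ProjectivePlane P L] :
    ((order P L ^ 2 / 4 : ℕ) : ℝ) ^ 2 ≤ 3 * order P L * (dualStrength P L : ℝ) ^ 2 := by
  classical
  have hq := one_lt_order P L
  have hP := card_points P L
  have hL := card_lines P L
  have ne : {s | ∃ w : P → ℕ, (∀ x, 0 < w x) ∧ Function.Injective (lineSum (L := L) w) ∧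
      ∀ x, w x ≤ s}.Nonempty := by
    let e := Fintype.equivFin P
    refine ⟨2 ^ Fintype.card P, fun x => 2 ^ (e x).val, fun x => by positivity, fun l l' h => ?_,
      fun x => Nat.pow_le_pow_right (by norm_num) (e x).2.le⟩
    have i : Function.Injective (fun x => (e x).val) := Fin.val_injective.comp e.injective
    unfold lineSum at h
    rw [← sum_image (f := fun i => 2 ^ i) i.injOn, ← sum_image (f := fun i => 2 ^ i) i.injOn] at h
    have h2 := image_injective i (Finset.geomSum_injective le_rfl h)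
    have h3 : ∀ x, x ∈ l ↔ x ∈ l' := fun x => by simpa using Finset.ext_iff.1 h2 x
    by_contra hne
    obtain ⟨x, -, hx⟩ := HasPoints.existsUnique_point P L l l' hne
    have := two_lt_pointCount P l
    unfold pointCount at this
    have : Nontrivial {p : P // p ∈ l} := Finite.one_lt_card_iff_nontrivial.1 (by omega)
    obtain ⟨a, b, hab⟩ := this
    exact hab (Subtype.ext ((hx a ⟨a.2, (h3 _).1 a.2⟩).trans (hx b ⟨b.2, (h3 _).1 b.2⟩).symm))
  obtain ⟨w, w0, wi, ws⟩ := Nat.sInf_mem ne
  change ∀ x, w x ≤ dualStrength P L at ws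
  generalize dualStrength P L = s at ws ⊢
  generalize hqq : order P L = q at *
  have hN : (0 : ℝ) < Fintype.card P := by rw [hP]; positivity
  set μ : ℝ := (∑ x, (w x : ℝ)) / Fintype.card P with hμ
  have u0 : ∑ x, ((w x : ℝ) - μ) = 0 := by
    rw [sum_sub_distrib, sum_const, card_univ, nsmul_eq_mul, hμ]; field_simp; ring
  have μ0 : 0 ≤ μ := by positivity
  have μ1 : μ ≤ s := by
    rw [hμ, div_le_iff₀ hN]
    refine (sum_le_sum fun x _ => Nat.cast_le.2 (ws x)).trans ?_
    simp [mul_comm]
  have u1 : ∑ x, ((w x : ℝ) - μ) ^ 2 ≤ Fintype.card P * (s : ℝ) ^ 2 := by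
    refine (sum_le_sum (g := fun _ => (s : ℝ) ^ 2) fun x _ => ?_).trans (by simp)
    have a : (w x : ℝ) ≤ s := Nat.cast_le.2 (ws x)
    have b : (0 : ℝ) ≤ w x := Nat.cast_nonneg _
    nlinarith
  have cnt : ∀ x y : P, (∑ l : L, if x ∈ l ∧ y ∈ l then (1 : ℝ) else 0) =
      1 + if y = x then (q : ℝ) else 0 := by
    intro x y
    rw [sum_boole]
    split_ifs with h
    · subst h
      have := lineCount_eq L y
      rw [lineCount, Nat.card_eq_fintype_card, Fintype.card_subtype, hqq] at this
      simp [this, add_comm]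
    · obtain ⟨l, h1, h2⟩ := HasLines.existsUnique_line P L x y (Ne.symm h)
      rw [show univ.filter (fun l : L => x ∈ l ∧ y ∈ l) = {l} from by
        ext l'; simp only [mem_filter, mem_univ, true_and, mem_singleton]
        exact ⟨h2 l', fun e => e ▸ h1⟩]
      simp
  have T : ∀ l : L, (lineSum w l : ℝ) - (q + 1) * μ = ∑ x, if x ∈ l then ((w x : ℝ) - μ) else 0 := by
    intro l
    have := pointCount_eq P l
    rw [pointCount, Nat.card_eq_fintype_card, Fintype.card_subtype, hqq] at this
    rw [← sum_filter, sum_sub_distrib, sum_const, this, lineSum]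
    simp
  have V : ∑ l : L, ((lineSum w l : ℝ) - (q + 1) * μ) ^ 2 = q * ∑ x, ((w x : ℝ) - μ) ^ 2 := by
    simp only [T, sq, sum_mul_sum]
    rw [sum_comm]
    have : ∀ x, ∑ l : L, ∑ y, (if x ∈ l then ((w x : ℝ) - μ) else 0) *
        (if y ∈ l then ((w y : ℝ) - μ) else 0) = q * (((w x : ℝ) - μ) * ((w x : ℝ) - μ)) := by
      intro x
      rw [sum_comm]
      have : ∀ y, ∑ l : L, (if x ∈ l then ((w x : ℝ) - μ) else 0) *
          (if y ∈ l then ((w y : ℝ) - μ) else 0) = ((w x : ℝ) - μ) * ((w y : ℝ) - μ) +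
            if y = x then q * (((w x : ℝ) - μ) * ((w x : ℝ) - μ)) else 0 := by
        intro y
        have e : ∀ l : L, (if x ∈ l then ((w x : ℝ) - μ) else 0) *
            (if y ∈ l then ((w y : ℝ) - μ) else 0) = ((w x : ℝ) - μ) * ((w y : ℝ) - μ) *
              (if x ∈ l ∧ y ∈ l then (1 : ℝ) else 0) := fun l => by
          by_cases a : x ∈ l <;> by_cases b : y ∈ l <;> simp [a, b]
        simp only [e, ← mul_sum, cnt]
        split_ifs with h
        · rw [h]; ring
        · ring
      simp only [this, sum_add_distrib, ← mul_sum, u0]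
      simp
    rw [sum_congr rfl (fun x _ => this x), ← mul_sum]
  set t : ℕ := q ^ 2 / 4 with ht
  set c : ℝ := (q + 1) * μ with hc
  have near : (univ.filter (fun l : L => |(lineSum w l : ℝ) - c| < t)).card ≤ 2 * t + 1 := by
    have := card_le_card_of_injOn (s := univ.filter (fun l : L => |(lineSum w l : ℝ) - c| < t))
      (t := Icc (⌊c⌋ - t) (⌊c⌋ + t)) (fun l => (lineSum w l : ℤ)) (by
        intro l hl
        simp only [coe_filter, mem_univ, true_and, Set.mem_ofPred_eq, abs_lt] at hl
        have a := Int.floor_le c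
        have b := Int.lt_floor_add_one c
        have a1 : ((⌊c⌋ - t : ℤ) : ℝ) ≤ ((lineSum w l : ℤ) : ℝ) := by push_cast; linarith
        have b1 : ((lineSum w l : ℤ) : ℝ) < ((⌊c⌋ + t + 1 : ℤ) : ℝ) := by push_cast; linarith
        have a2 := Int.cast_le.1 a1
        have b2 := Int.cast_lt.1 b1
        simp only [coe_Icc, Set.mem_Icc]; omega) (fun l _ l' _ h => wi (Int.natCast_inj.1 h))
    rw [Int.card_Icc] at this
    omega
  have far : Fintype.card P ≤ 3 * (univ.filter (fun l : L => ¬ |(lineSum w l : ℝ) - c| < t)).card := by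
    have := card_filter_add_card_filter_not (s := univ) (fun l : L => |(lineSum w l : ℝ) - c| < t)
    rw [card_univ, hL] at this
    omega
  have low : ((univ.filter (fun l : L => ¬ |(lineSum w l : ℝ) - c| < t)).card : ℝ) * (t : ℝ) ^ 2 ≤
      ∑ l : L, ((lineSum w l : ℝ) - c) ^ 2 := by
    refine le_trans ?_ (sum_le_sum_of_subset_of_nonneg (filter_subset
      (fun l : L => ¬ |(lineSum w l : ℝ) - c| < t) _) fun _ _ _ => sq_nonneg _)
    rw [← nsmul_eq_mul]
    refine card_nsmul_le_sum _ _ _ fun l hl => ?_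
    rw [← sq_abs ((lineSum w l : ℝ) - c)]
    exact pow_le_pow_left₀ (Nat.cast_nonneg _) (not_lt.1 (mem_filter.1 hl).2) 2
  have far' : (Fintype.card P : ℝ) ≤
      3 * ((univ.filter (fun l : L => ¬ |(lineSum w l : ℝ) - c| < t)).card : ℝ) := by
    exact_mod_cast far
  have h1 := mul_le_mul_of_nonneg_left u1 (Nat.cast_nonneg (α := ℝ) q)
  have h2 := mul_le_mul_of_nonneg_right far' (sq_nonneg (t : ℝ))
  refine le_of_mul_le_mul_left (a := (Fintype.card P : ℝ)) ?_ hN
  nlinarith

theorem result : (∀ (P L : Type) [Membership P L] [Fintype P] [Fintype L] [ProjectivePlane P L],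
      3 ≤ order P L → (order P L : ℝ) ^ 3 ≤ 192 * (dualStrength P L : ℝ) ^ 2) ∧
    ∀ c : ℝ, ∃ (P L : Type) (_ : Membership P L) (_ : Fintype P) (_ : Fintype L)
      (_ : ProjectivePlane P L), c * order P L < dualStrength P L := by
  classical
  have main : ∀ (P L : Type) [Membership P L] [Fintype P] [Fintype L] [ProjectivePlane P L],
      3 ≤ order P L → (order P L : ℝ) ^ 3 ≤ 192 * (dualStrength P L : ℝ) ^ 2 := by
    intro P L _ _ _ _ h3
    have b := bound P L
    generalize order P L = q at *
    have a : q ^ 2 ≤ 8 * (q ^ 2 / 4) := by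
      have : 3 ^ 2 ≤ q ^ 2 := Nat.pow_le_pow_left h3 2
      omega
    have a' : (q : ℝ) ^ 2 ≤ 8 * ((q ^ 2 / 4 : ℕ) : ℝ) := by exact_mod_cast a
    have a2 := pow_le_pow_left₀ (by positivity) a' 2
    have q0 : (0 : ℝ) < q := by exact_mod_cast (by omega : 0 < q)
    refine le_of_mul_le_mul_left (a := (q : ℝ)) ?_ q0
    nlinarith
  refine ⟨main, fun c => ?_⟩
  obtain ⟨K, hK⟩ := exists_nat_gt (192 * c ^ 2)
  obtain ⟨p, hp1, hp⟩ := Nat.exists_infinite_primes (K + 3)
  have := Fact.mk hp
  let X := Projectivization (ZMod p) (Fin 3 → ZMod p)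
  let _ : Fintype X := Fintype.ofFinite X
  refine ⟨X, X, inferInstance, inferInstance, inferInstance, inferInstance, ?_⟩
  have c1 := card_points X X
  have c2 := Projectivization.card_of_finrank (ZMod p) (Fin 3 → ZMod p) (n := 3) (by simp)
  rw [Nat.card_eq_fintype_card, c1] at c2
  simp only [Nat.card_eq_fintype_card, ZMod.card, sum_range_succ, range_zero, sum_empty,
    pow_zero, pow_one] at c2
  have c3 : K + 3 ≤ order X X := by
    by_contra hh
    have : order X X ^ 2 ≤ p ^ 2 := Nat.pow_le_pow_left (by omega) 2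
    generalize order X X ^ 2 = A at *
    generalize p ^ 2 = B at *
    omega
  have m := main X X (by omega)
  have c4 : (K : ℝ) + 3 ≤ order X X := by exact_mod_cast c3
  by_contra hh
  have h1 := pow_le_pow_left₀ (Nat.cast_nonneg _) (not_lt.1 hh) 2
  have K0 : (0 : ℝ) ≤ K := Nat.cast_nonneg _
  have q0 : (0 : ℝ) < (order X X : ℝ) ^ 2 := pow_pos (by linarith) 2
  nlinarith

end Pool.Agent.Results.MP_aa9284_co.Disproof
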